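import Pool.Agent.H27.Fr3

namespace Pool.Agent.Results.MP_d042fc_an.Unique

open Pool.Agent.H27

theorem result (τ t : ℝ) (b : ℕ → ℝ) (hb : FrDef.PosSol τ t b) :
    b 1 = FrDef.mu τ t 2 / FrDef.mu τ t 0 ∧
    b 2 = FrDef.mu τ t 4 / FrDef.mu τ t 2 - FrDef.mu τ t 2 / FrDef.mu τ t 0 ∧
    ∀ b' : ℕ → ℝ, FrDef.PosSol τ t b' → b' = b := by
  refine ⟨(Fr.main hb).1, (Fr.main hb).2, fun c hc => funext fun n => ?_⟩
  induction n using Nat.strong_induction_on with | _ n ih =>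
  match n with
  | 0 => rw [hb.1, hc.1]
  | 1 => rw [(Fr.main hb).1, (Fr.main hc).1]
  | 2 => rw [(Fr.main hb).2, (Fr.main hc).2]
  | n + 3 =>
    have e1 := hb.2.2 (n + 1) (by omega)
    have e2 := hc.2.2 (n + 1) (by omega)
    rw [ih (n + 1) (by omega), ih (n + 1 + 1) (by omega), ih (n + 1 - 1) (by omega),
      ih (n + 1 - 2) (by omega)] at e2
    refine mul_left_cancel₀ (mul_pos (hb.2.1 (n + 1) (by omega))
      (hb.2.1 (n + 1 + 1) (by omega))).ne' ?_
    linear_combination (e2 - e1) / 6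

end Pool.Agent.Results.MP_d042fc_an.Unique
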